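import Mathlib

/-!
# The absorbing-element extension of a finitely based semiring is finitely based

A semiring here has a commutative semigroup `(S, +)`, a semigroup `(S, *)` and both distributive
laws; no zero, no identity element, no idempotency and no finiteness is assumed.

Idea of the proof.  If `p ~ q` is an identity of `S` whose two sides have different variables, then
`S` satisfies `p ~ p + h(z, g)` for a term `h` which contains the new variable `g`.  So an element
of the form `U = l p(z) r + W` absorbs `l h(z, g) r` for all `g` built from the variables of `U`.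
Two such terms `u`, `v` with the same variables, equal in `S`, satisfy `U = V + H`, `U + H = U`,
`V = U + H'` in every model of a finite set of identities of `S` with equal sets of variables,
and therefore `U = V`.
-/

namespace Pool.Agent.Results.MP_cd9307_al.AbsorbingFinitelyBased

universe u

set_option linter.unusedSectionVars false
set_option linter.unusedSimpArgs false
set_option linter.unusedVariables false
set_option linter.style.haveILetI false

/-! ### Definitions used in the statement -/

/-- Terms in the signature `(+, *)` over a set `V` of variables. -/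
inductive Term (V : Type) : Type where
  | var : V → Term V
  | add : Term V → Term V → Term V
  | mul : Term V → Term V → Term V

/-- The value of a term in an algebra `A` of type `(+, *)` under the assignment `a`. -/
def Term.eval {V : Type} {A : Type u} [Add A] [Mul A] (a : V → A) : Term V → A
  | .var i => a i
  | .add s t => s.eval a + t.eval a
  | .mul s t => s.eval a * t.eval a

/-- An identity `s ~ t`: a pair of terms over the countably many variables `x_0, x_1, ...`. -/
abbrev Identity : Type := Term ℕ × Term ℕ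

/-- The identity `e` holds in the algebra `A`. -/
def Holds (A : Type u) [Add A] [Mul A] (e : Identity) : Prop :=
  ∀ a : ℕ → A, e.1.eval a = e.2.eval a

/-- Semirings: `(A, +)` is a commutative semigroup, `(A, *)` is a semigroup, and multiplication
distributes over addition on both sides. -/
structure IsSemiring (A : Type u) [Add A] [Mul A] : Prop where
  add_comm : ∀ a b : A, a + b = b + a
  add_assoc : ∀ a b c : A, a + b + c = a + (b + c)
  mul_assoc : ∀ a b c : A, a * b * c = a * (b * c)
  left_distrib : ∀ a b c : A, a * (b + c) = a * b + a * c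
  right_distrib : ∀ a b c : A, (a + b) * c = a * c + b * c

/-- `S` is finitely based: the variety `V(S)`, the class of all algebras `A` which satisfy every
identity that holds in `S`, is defined by some finite set `E` of identities. -/
def FinitelyBased (S : Type u) [Add S] [Mul S] : Prop :=
  ∃ E : Set Identity, E.Finite ∧
    ∀ (A : Type u) [Add A] [Mul A],
      (∀ e ∈ E, Holds A e) ↔ (∀ e : Identity, Holds S e → Holds A e)

/-- The set `S ∪ {∞}`. -/
inductive Ext (S : Type u) : Type u where
  | fin : S → Ext S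
  | inf : Ext S

/-- The addition of `S ∪ {∞}` extends the one of `S`, and `∞` is absorbing. -/
instance (S : Type u) [Add S] : Add (Ext S) where
  add x y := match x, y with
    | .fin s, .fin t => .fin (s + t)
    | _, _ => .inf

/-- The multiplication of `S ∪ {∞}` extends the one of `S`, and `∞` is absorbing. -/
instance (S : Type u) [Mul S] : Mul (Ext S) where
  mul x y := match x, y with
    | .fin s, .fin t => .fin (s * t)
    | _, _ => .inf

/-! ### Terms -/

namespace Term

variable {V W : Type}

/-- substitution -/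
def subst (σ : V → Term W) : Term V → Term W
  | .var i => σ i
  | .add s t => .add (s.subst σ) (t.subst σ)
  | .mul s t => .mul (s.subst σ) (t.subst σ)

/-- the set of variables of a term -/
def vars : Term V → Set V
  | .var i => {i}
  | .add s t => s.vars ∪ t.vars
  | .mul s t => s.vars ∪ t.vars

@[simp] theorem vars_var (i : V) : (Term.var i).vars = {i} := rfl
@[simp] theorem vars_add (s t : Term V) : (s.add t).vars = s.vars ∪ t.vars := rfl
@[simp] theorem vars_mul (s t : Term V) : (s.mul t).vars = s.vars ∪ t.vars := rfl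

theorem vars_nonempty (t : Term V) : t.vars.Nonempty := by
  induction t with
  | var i => exact ⟨i, rfl⟩
  | add s t h1 _ => exact h1.mono Set.subset_union_left
  | mul s t h1 _ => exact h1.mono Set.subset_union_left

theorem vars_finite (t : Term V) : t.vars.Finite := by
  induction t with
  | var i => exact Set.finite_singleton i
  | add s t h1 h2 => exact h1.union h2
  | mul s t h1 h2 => exact h1.union h2

theorem mem_vars_subst (σ : V → Term W) (t : Term V) (j : W) :
    j ∈ (t.subst σ).vars ↔ ∃ i ∈ t.vars, j ∈ (σ i).vars := by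
  induction t with
  | var i => simp [subst]
  | add s t h1 h2 =>
    simp only [subst, vars_add, Set.mem_union, h1, h2]
    constructor
    · rintro (⟨i, hi, h⟩ | ⟨i, hi, h⟩)
      exacts [⟨i, Or.inl hi, h⟩, ⟨i, Or.inr hi, h⟩]
    · rintro ⟨i, hi | hi, h⟩
      exacts [Or.inl ⟨i, hi, h⟩, Or.inr ⟨i, hi, h⟩]
  | mul s t h1 h2 =>
    simp only [subst, vars_mul, Set.mem_union, h1, h2]
    constructor
    · rintro (⟨i, hi, h⟩ | ⟨i, hi, h⟩)
      exacts [⟨i, Or.inl hi, h⟩, ⟨i, Or.inr hi, h⟩]
    · rintro ⟨i, hi | hi, h⟩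
      exacts [Or.inl ⟨i, hi, h⟩, Or.inr ⟨i, hi, h⟩]

theorem vars_subst (σ : V → Term W) (t : Term V) :
    (t.subst σ).vars = ⋃ i ∈ t.vars, (σ i).vars := by
  ext j
  rw [mem_vars_subst]
  simp

variable {A : Type u} [Add A] [Mul A]

@[simp] theorem eval_var (a : V → A) (i : V) : (Term.var i).eval a = a i := rfl
@[simp] theorem eval_add (a : V → A) (s t : Term V) :
    (s.add t).eval a = s.eval a + t.eval a := rfl
@[simp] theorem eval_mul (a : V → A) (s t : Term V) :
    (s.mul t).eval a = s.eval a * t.eval a := rfl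

theorem eval_subst (a : W → A) (σ : V → Term W) (t : Term V) :
    (t.subst σ).eval a = t.eval (fun i => (σ i).eval a) := by
  induction t with
  | var i => rfl
  | add s t h1 h2 => simp [subst, h1, h2]
  | mul s t h1 h2 => simp [subst, h1, h2]

theorem eval_congr {a b : V → A} (t : Term V) (h : ∀ i ∈ t.vars, a i = b i) :
    t.eval a = t.eval b := by
  induction t with
  | var i => exact h i rfl
  | add s t h1 h2 =>
    simp only [eval_add]
    rw [h1 fun i hi => h i (Or.inl hi), h2 fun i hi => h i (Or.inr hi)]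
  | mul s t h1 h2 =>
    simp only [eval_mul]
    rw [h1 fun i hi => h i (Or.inl hi), h2 fun i hi => h i (Or.inr hi)]

theorem subst_var (t : Term V) : t.subst Term.var = t := by
  induction t with
  | var i => rfl
  | add s t h1 h2 => simp [subst, h1, h2]
  | mul s t h1 h2 => simp [subst, h1, h2]

end Term

open Term

/-! ### Identities over other sets of variables -/

/-- identities over a countable set of variables, moved to `ℕ` -/
def lower {Y : Type} [Encodable Y] (e : Term Y × Term Y) : Identity :=
  (e.1.subst fun y => .var (Encodable.encode y), e.2.subst fun y => .var (Encodable.encode y))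

theorem holds_lower {Y : Type} [Encodable Y] [Inhabited Y] {A : Type u} [Add A] [Mul A]
    {e : Term Y × Term Y} :
    Holds A (lower e) ↔ ∀ a : Y → A, e.1.eval a = e.2.eval a := by
  constructor
  · intro h a
    have h1 := h (fun n => a ((Encodable.decode n).getD default))
    simpa [lower, eval_subst] using h1
  · intro h a
    simpa [lower, eval_subst] using h (fun y => a (Encodable.encode y))

theorem vars_lower {Y : Type} [Encodable Y] {e : Term Y × Term Y} (h : e.1.vars = e.2.vars) :
    (lower e).1.vars = (lower e).2.vars := by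
  simp [lower, vars_subst, h]

/-! ### Identities of `S ∪ {∞}` -/

section ext

variable {S : Type u} [Add S] [Mul S]

@[simp] theorem fin_add (s t : S) : (Ext.fin s + Ext.fin t : Ext S) = Ext.fin (s + t) := rfl
@[simp] theorem fin_mul (s t : S) : (Ext.fin s * Ext.fin t : Ext S) = Ext.fin (s * t) := rfl
@[simp] theorem inf_add (x : Ext S) : (Ext.inf + x : Ext S) = Ext.inf := rfl
@[simp] theorem inf_mul (x : Ext S) : (Ext.inf * x : Ext S) = Ext.inf := rfl
@[simp] theorem add_inf (x : Ext S) : (x + Ext.inf : Ext S) = Ext.inf := by cases x <;> rfl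
@[simp] theorem mul_inf (x : Ext S) : (x * Ext.inf : Ext S) = Ext.inf := by cases x <;> rfl

theorem eval_fin {V : Type} (a : V → S) (t : Term V) :
    t.eval (fun i => Ext.fin (a i)) = Ext.fin (t.eval a) := by
  induction t with
  | var i => rfl
  | add s t h1 h2 => simp [h1, h2]
  | mul s t h1 h2 => simp [h1, h2]

theorem eval_inf {V : Type} (a : V → Ext S) (t : Term V) (h : ∃ i ∈ t.vars, a i = Ext.inf) :
    t.eval a = Ext.inf := by
  induction t with
  | var i => obtain ⟨j, hj, h⟩ := h; rw [vars_var, Set.mem_singleton_iff] at hj; subst hj; exact h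
  | add s t h1 h2 =>
    obtain ⟨j, hj | hj, h⟩ := h
    · simp [h1 ⟨j, hj, h⟩]
    · simp [h2 ⟨j, hj, h⟩]
  | mul s t h1 h2 =>
    obtain ⟨j, hj | hj, h⟩ := h
    · simp [h1 ⟨j, hj, h⟩]
    · simp [h2 ⟨j, hj, h⟩]

theorem holds_ext [Nonempty S] (e : Identity) :
    Holds (Ext S) e ↔ e.1.vars = e.2.vars ∧ Holds S e := by
  classical
  obtain ⟨s0⟩ := ‹Nonempty S›
  have key : ∀ s t : Term ℕ, (∀ a : ℕ → Ext S, s.eval a = t.eval a) → s.vars ⊆ t.vars := by
    intro s t h i hi
    by_contra hn
    have h1 := h (fun j => if j = i then Ext.inf else Ext.fin s0)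
    rw [eval_inf _ s ⟨i, hi, by simp⟩] at h1
    have h2 : t.eval (fun j => if j = i then (Ext.inf : Ext S) else Ext.fin s0)
        = Ext.fin (t.eval fun _ => s0) := by
      rw [← eval_fin]
      refine eval_congr t fun j hj => ?_
      have : j ≠ i := fun h => hn (h ▸ hj)
      simp [this]
    rw [h2] at h1
    cases h1
  constructor
  · intro h
    refine ⟨Set.Subset.antisymm (key _ _ h) (key _ _ fun a => (h a).symm), fun a => ?_⟩
    have := h (fun i => Ext.fin (a i))
    rw [eval_fin, eval_fin] at this
    exact Ext.fin.inj this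
  · rintro ⟨hv, h⟩ a
    by_cases hi : ∃ i ∈ e.1.vars, a i = Ext.inf
    · rw [eval_inf a e.1 hi, eval_inf a e.2 (hv ▸ hi)]
    · push Not at hi
      have hch : ∀ x : Ext S, ∃ y : S, x ≠ Ext.inf → x = Ext.fin y := by
        intro x
        cases x with
        | fin y => exact ⟨y, fun _ => rfl⟩
        | inf => exact ⟨s0, fun h => absurd rfl h⟩
      choose f hf using hch
      rw [eval_congr (b := fun i => Ext.fin (f (a i))) e.1 fun i hi' => hf _ (hi i hi'),
        eval_congr (b := fun i => Ext.fin (f (a i))) e.2 fun i hi' => hf _ (hi i (hv ▸ hi')),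
        eval_fin, eval_fin, h]

end ext

/-! ### Completeness of equational logic, in the form of congruences of the term algebra -/

/-- congruences of the term algebra -/
structure IsCong (R : Term ℕ → Term ℕ → Prop) : Prop where
  equiv : Equivalence R
  add : ∀ {s s' t t'}, R s s' → R t t' → R (s.add t) (s'.add t')
  mul : ∀ {s s' t t'}, R s s' → R t t' → R (s.mul t) (s'.mul t')

theorem complete {S : Type u} [Add S] [Mul S] {E : Set Identity}
    (hE : ∀ (A : Type u) [Add A] [Mul A],
      (∀ e ∈ E, Holds A e) → ∀ e : Identity, Holds S e → Holds A e)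
    {R : Term ℕ → Term ℕ → Prop} (hR : IsCong R)
    (hinst : ∀ e ∈ E, ∀ σ : ℕ → Term ℕ, R (e.1.subst σ) (e.2.subst σ))
    (e : Identity) (he : Holds S e) : R e.1 e.2 := by
  let st : Setoid (Term ℕ) := ⟨R, hR.equiv⟩
  letI iadd : Add (Quotient st) :=
    ⟨Quotient.map₂ Term.add fun _ _ h1 _ _ h2 => hR.add h1 h2⟩
  letI imul : Mul (Quotient st) :=
    ⟨Quotient.map₂ Term.mul fun _ _ h1 _ _ h2 => hR.mul h1 h2⟩
  have hev : ∀ (σ : ℕ → Term ℕ) (t : Term ℕ),
      t.eval (fun i => (ULift.up (Quotient.mk st (σ i)) : ULift.{u} (Quotient st)))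
        = ULift.up (Quotient.mk st (t.subst σ)) := by
    intro σ t
    induction t with
    | var i => rfl
    | add s t h1 h2 => rw [eval_add, h1, h2]; rfl
    | mul s t h1 h2 => rw [eval_mul, h1, h2]; rfl
  have h1 := hE (ULift.{u} (Quotient st)) ?_ e he
    (fun i => ULift.up (Quotient.mk st (Term.var i)))
  · rw [hev, hev, subst_var, subst_var] at h1
    exact Quotient.exact (ULift.up.inj h1)
  · intro e he a
    have : ∃ σ : ℕ → Term ℕ, a = fun i => ULift.up (Quotient.mk st (σ i)) := by
      choose σ hσ using fun i => Quotient.exists_rep (a i).down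
      exact ⟨σ, funext fun i => by rw [hσ i]⟩
    obtain ⟨σ, rfl⟩ := this
    rw [hev, hev]
    exact congrArg ULift.up (Quotient.sound (hinst e he σ))

/-! ### Terms with a hole of the form `l * _ * r + w`, with optional `l`, `r`, `w` -/

section wrap

variable {V : Type}

/-- `l * t * r` with optional `l`, `r` -/
def wrap (l r : Option (Term V)) (t : Term V) : Term V :=
  match l, r with
  | none, none => t
  | some l, none => l.mul t
  | none, some r => t.mul r
  | some l, some r => (l.mul t).mul r

/-- `t + w` with optional `w` -/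
def plus (t : Term V) (w : Option (Term V)) : Term V :=
  match w with
  | none => t
  | some w => t.add w

/-- the variables of an optional term -/
def ovars (o : Option (Term V)) : Set V := o.elim ∅ Term.vars

@[simp] theorem ovars_none : ovars (none : Option (Term V)) = ∅ := rfl
@[simp] theorem ovars_some (t : Term V) : ovars (some t) = t.vars := rfl

theorem vars_wrap (l r : Option (Term V)) (t : Term V) :
    (wrap l r t).vars = ovars l ∪ t.vars ∪ ovars r := by
  cases l <;> cases r <;> simp [wrap]

theorem vars_plus (t : Term V) (w : Option (Term V)) :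
    (plus t w).vars = t.vars ∪ ovars w := by
  cases w <;> simp [plus]

variable {A : Type u} [Add A] [Mul A]

/-- `l * x * r` with optional `l`, `r` -/
def wrapA (l r : Option A) (x : A) : A :=
  match l, r with
  | none, none => x
  | some l, none => l * x
  | none, some r => x * r
  | some l, some r => l * x * r

/-- `x + w` with optional `w` -/
def plusA (x : A) (w : Option A) : A :=
  match w with
  | none => x
  | some w => x + w

theorem eval_wrap (a : V → A) (l r : Option (Term V)) (t : Term V) :
    (wrap l r t).eval a = wrapA (l.map (Term.eval a)) (r.map (Term.eval a)) (t.eval a) := by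
  cases l <;> cases r <;> rfl

theorem eval_plus (a : V → A) (t : Term V) (w : Option (Term V)) :
    (plus t w).eval a = plusA (t.eval a) (w.map (Term.eval a)) := by
  cases w <;> rfl

theorem wrapA_add (hA : IsSemiring A) (l r : Option A) (x y : A) :
    wrapA l r (x + y) = wrapA l r x + wrapA l r y := by
  cases l <;> cases r <;> simp [wrapA, hA.left_distrib, hA.right_distrib]

/-- `x * l` or `x` -/
def mulL (x : A) (l : Option A) : A := l.elim x (x * ·)

/-- `r * x` or `x` -/
def mulR (r : Option A) (x : A) : A := r.elim x (· * x)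

theorem wrapA_mul_right (hA : IsSemiring A) (l r : Option A) (x c : A) :
    wrapA l r x * c = wrapA l (some (mulR r c)) x := by
  cases l <;> cases r <;> simp [wrapA, mulR, hA.mul_assoc]

theorem mul_wrapA (hA : IsSemiring A) (l r : Option A) (x c : A) :
    c * wrapA l r x = wrapA (some (mulL c l)) r x := by
  cases l <;> cases r <;> simp [wrapA, mulL, hA.mul_assoc]

theorem wrapA_mul1 (hA : IsSemiring A) (l r : Option A) (x y : A) :
    wrapA l r (x * y) = wrapA l (some (mulL y r)) x := by
  cases l <;> cases r <;> simp [wrapA, mulL, hA.mul_assoc]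

theorem wrapA_mul2 (hA : IsSemiring A) (l r : Option A) (x y : A) :
    wrapA l r (x * y) = wrapA (some (mulR l x)) r y := by
  cases l <;> cases r <;> simp [wrapA, mulR, hA.mul_assoc]

theorem plusA_add (hA : IsSemiring A) (x y : A) (w : Option A) :
    plusA x w + y = plusA (x + y) w := by
  cases w with
  | none => rfl
  | some w => simp only [plusA]; rw [hA.add_assoc, hA.add_comm w y, hA.add_assoc]

end wrap

/-! ### Holders -/

/-- the value of `h(z, g)` -/
def hval {A : Type u} [Add A] [Mul A] (h : Term (Option ℕ)) (z : ℕ → A) (g : A) : A :=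
  h.eval fun o => o.elim g z

/-- the term `h(ζ, γ)` -/
def hsub {V : Type} (h : Term (Option ℕ)) (ζ : ℕ → Term V) (γ : Term V) : Term V :=
  h.subst fun o => o.elim γ ζ

theorem eval_hsub {V : Type} {A : Type u} [Add A] [Mul A] (a : V → A) (h : Term (Option ℕ))
    (ζ : ℕ → Term V) (γ : Term V) :
    (hsub h ζ γ).eval a = hval h (fun i => (ζ i).eval a) (γ.eval a) := by
  unfold hsub hval
  rw [eval_subst]
  congr 1
  funext o
  cases o <;> rfl

/-- `S` satisfies `p ~ p + h(z, g)`; the new variable `g` occurs in `h`, and the other variables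
of `h` occur in `p` -/
structure Good (S : Type u) [Add S] [Mul S] (p : Term ℕ) (h : Term (Option ℕ)) : Prop where
  holds : ∀ (z : ℕ → S) (g : S), p.eval z + hval h z g = p.eval z
  mem : none ∈ h.vars
  sub : ∀ i, some i ∈ h.vars → i ∈ p.vars

/-- `t[g := g + g] = t + h` for a term `t` which contains `g` -/
theorem exists_expansion (t : Term (Option ℕ)) :
    (none ∉ t.vars → ∀ (S : Type u) [Add S] [Mul S], ∀ (z : ℕ → S) (g g' : S),
      hval t z g = hval t z g') ∧
    (none ∈ t.vars → ∃ h : Term (Option ℕ), none ∈ h.vars ∧ h.vars ⊆ t.vars ∧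
      ∀ (S : Type u) [Add S] [Mul S], IsSemiring S → ∀ (z : ℕ → S) (g : S),
        hval t z (g + g) = hval t z g + hval h z g) := by
  have hno : ∀ t : Term (Option ℕ), none ∉ t.vars → ∀ (S : Type u) [Add S] [Mul S],
      ∀ (z : ℕ → S) (g g' : S), hval t z g = hval t z g' := by
    intro t ht S _ _ z g g'
    refine eval_congr t fun i hi => ?_
    cases i with
    | none => exact absurd hi ht
    | some i => rfl
  refine ⟨hno t, ?_⟩
  induction t with
  | var i =>
    intro hi
    rw [vars_var, Set.mem_singleton_iff] at hi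
    subst hi
    exact ⟨.var none, rfl, subset_rfl, fun S _ _ _ z g => rfl⟩
  | add s t hs ht =>
    intro h
    by_cases h1 : none ∈ s.vars <;> by_cases h2 : none ∈ t.vars
    · obtain ⟨k1, m1, b1, e1⟩ := hs h1
      obtain ⟨k2, m2, b2, e2⟩ := ht h2
      refine ⟨k1.add k2, Or.inl m1, Set.union_subset_union b1 b2, fun S _ _ hS z g => ?_⟩
      have E1 := e1 S hS z g
      have E2 := e2 S hS z g
      simp only [hval, eval_add] at E1 E2 ⊢
      rw [E1, E2, hS.add_assoc, hS.add_assoc]
      congr 1
      rw [← hS.add_assoc, ← hS.add_assoc, hS.add_comm (Term.eval _ k1)]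
    · obtain ⟨k1, m1, b1, e1⟩ := hs h1
      refine ⟨k1, m1, b1.trans Set.subset_union_left, fun S _ _ hS z g => ?_⟩
      have E1 := e1 S hS z g
      have E2 := hno t h2 S z (g + g) g
      simp only [hval, eval_add] at E1 E2 ⊢
      rw [E1, E2, hS.add_assoc, hS.add_assoc]
      congr 1
      rw [hS.add_comm]
    · obtain ⟨k2, m2, b2, e2⟩ := ht h2
      refine ⟨k2, m2, b2.trans Set.subset_union_right, fun S _ _ hS z g => ?_⟩
      have E2 := e2 S hS z g
      have E1 := hno s h1 S z (g + g) g
      simp only [hval, eval_add] at E1 E2 ⊢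
      rw [E1, E2, hS.add_assoc]
    · exact absurd h (fun h => h.elim h1 h2)
  | mul s t hs ht =>
    intro h
    by_cases h1 : none ∈ s.vars <;> by_cases h2 : none ∈ t.vars
    · obtain ⟨k1, m1, b1, e1⟩ := hs h1
      obtain ⟨k2, m2, b2, e2⟩ := ht h2
      refine ⟨(s.mul k2).add ((k1.mul t).add (k1.mul k2)), Or.inl (Or.inl h1), ?_,
        fun S _ _ hS z g => ?_⟩
      · simp only [vars_add, vars_mul]
        rintro x ((h | h) | ((h | h) | (h | h)))
        exacts [Or.inl h, Or.inr (b2 h), Or.inl (b1 h), Or.inr h, Or.inl (b1 h), Or.inr (b2 h)]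
      have E1 := e1 S hS z g
      have E2 := e2 S hS z g
      simp only [hval, eval_add, eval_mul] at E1 E2 ⊢
      rw [E1, E2, hS.right_distrib, hS.left_distrib, hS.left_distrib, hS.add_assoc]
    · obtain ⟨k1, m1, b1, e1⟩ := hs h1
      refine ⟨k1.mul t, Or.inl m1, Set.union_subset_union_left _ b1, fun S _ _ hS z g => ?_⟩
      have E1 := e1 S hS z g
      have E2 := hno t h2 S z (g + g) g
      simp only [hval, eval_add, eval_mul] at E1 E2 ⊢
      rw [E1, E2, hS.right_distrib]
    · obtain ⟨k2, m2, b2, e2⟩ := ht h2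
      refine ⟨s.mul k2, Or.inr m2, Set.union_subset_union_right _ b2, fun S _ _ hS z g => ?_⟩
      have E2 := e2 S hS z g
      have E1 := hno s h1 S z (g + g) g
      simp only [hval, eval_add, eval_mul] at E1 E2 ⊢
      rw [E1, E2, hS.left_distrib]
    · exact absurd h (fun h => h.elim h1 h2)

theorem exists_good {S : Type u} [Add S] [Mul S] (hS : IsSemiring S) {p q : Term ℕ}
    (hpq : ∀ a : ℕ → S, p.eval a = q.eval a) (hne : p.vars ≠ q.vars) :
    ∃ h : Term (Option ℕ), Good S p h := by
  classical
  -- a term `t(z, g)` with `p(z) = t(z, g)` in `S`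
  have key : ∃ t : Term (Option ℕ), none ∈ t.vars ∧ (∀ i, some i ∈ t.vars → i ∈ p.vars) ∧
      ∀ (z : ℕ → S) (g : S), p.eval z = hval t z g := by
    by_cases h1 : q.vars ⊆ p.vars
    · -- `p` has a variable `y` which is not in `q`
      have h2 : ¬ p.vars ⊆ q.vars := fun h => hne (Set.Subset.antisymm h h1)
      obtain ⟨y, hy, hyq⟩ := Set.not_subset.1 h2
      refine ⟨p.subst fun i => if i = y then .var none else .var (some i), ?_, ?_, ?_⟩
      · rw [mem_vars_subst]
        exact ⟨y, hy, by simp⟩
      · intro i hi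
        rw [mem_vars_subst] at hi
        obtain ⟨j, hj, hij⟩ := hi
        by_cases hjy : j = y
        · simp [hjy] at hij
        · simp only [hjy, if_false, vars_var, Set.mem_singleton_iff, Option.some.injEq] at hij
          exact hij ▸ hj
      · intro z g
        have e1 : q.eval z = q.eval (fun i => if i = y then g else z i) := by
          refine eval_congr q fun i hi => ?_
          have : i ≠ y := fun h => hyq (h ▸ hi)
          simp [this]
        rw [hpq, e1, ← hpq, hval, eval_subst]
        refine eval_congr p fun i hi => ?_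
        by_cases h : i = y <;> simp [h]
    · obtain ⟨y, hy, hyp⟩ := Set.not_subset.1 h1
      refine ⟨q.subst fun i => if i ∈ p.vars then .var (some i) else .var none, ?_, ?_, ?_⟩
      · rw [mem_vars_subst]
        exact ⟨y, hy, by simp [hyp]⟩
      · intro i hi
        rw [mem_vars_subst] at hi
        obtain ⟨j, hj, hij⟩ := hi
        by_cases hjy : j ∈ p.vars
        · simp only [hjy, if_true, vars_var, Set.mem_singleton_iff, Option.some.injEq] at hij
          exact hij ▸ hjy
        · simp [hjy] at hij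
      · intro z g
        have e1 : p.eval z = p.eval (fun i => if i ∈ p.vars then z i else g) := by
          refine eval_congr p fun i hi => ?_
          simp [hi]
        rw [e1, hpq, hval, eval_subst]
        refine eval_congr q fun i hi => ?_
        by_cases h : i ∈ p.vars <;> simp [h]
  obtain ⟨t, h1, h2, h3⟩ := key
  obtain ⟨h, m, b, e⟩ := (exists_expansion.{u} t).2 h1
  refine ⟨h, ⟨fun z g => ?_, m, fun i hi => h2 i (b hi)⟩⟩
  rw [h3 z g, ← e S hS z g, ← h3, ← h3]

/-! ### The finite set of identities -/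

/-- the variables of the auxiliary identities -/
abbrev Y : Type := ℕ ⊕ ℕ ⊕ Fin 6

/-- the variables `z_j` -/
def vz (j : ℕ) : Term Y := .var (.inl j)
/-- the variables `z'_j` -/
def vz' (j : ℕ) : Term Y := .var (.inr (.inl j))
/-- the variables for the contexts -/
def vc (j : Fin 6) : Term Y := .var (.inr (.inr j))

/-- `l p r + W + l h(z, γ) r ~ l p r + W` -/
def idA (p : Term ℕ) (h : Term (Option ℕ)) (l r W : Option (Term Y)) (γ : Term Y) :
    Term Y × Term Y :=
  ((plus (wrap l r (p.subst vz)) W).add (wrap l r (hsub h vz γ)), plus (wrap l r (p.subst vz)) W)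

/-- `l' e.1 r' + l h(z, γ) r ~ l' e.2 r' + l h(z, γ) r` where `γ` contains all variables of
`l' e.1 r'` and of `l' e.2 r'` -/
def idC (h : Term (Option ℕ)) (l r l' r' : Option (Term Y)) (e : Identity) :
    Term Y × Term Y :=
  ((wrap l' r' (e.1.subst vz')).add (wrap l r (hsub h vz
      (plus (plus ((e.1.subst vz').add (e.2.subst vz')) l') r'))),
    (wrap l' r' (e.2.subst vz')).add (wrap l r (hsub h vz
      (plus (plus ((e.1.subst vz').add (e.2.subst vz')) l') r'))))

theorem idA_vars {S : Type u} [Add S] [Mul S] {p : Term ℕ} {h : Term (Option ℕ)}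
    (hg : Good S p h) {l r W : Option (Term Y)} {γ : Term Y}
    (hγ : γ.vars ⊆ ovars l ∪ (p.subst vz).vars ∪ ovars r ∪ ovars W) :
    (idA p h l r W γ).1.vars = (idA p h l r W γ).2.vars := by
  simp only [idA, vars_add, vars_wrap, vars_plus]
  refine Set.union_eq_self_of_subset_right ?_
  rintro x ((hx | hx) | hx)
  · exact Or.inl (Or.inl (Or.inl hx))
  · rw [hsub, mem_vars_subst] at hx
    obtain ⟨o, ho, hx⟩ := hx
    cases o with
    | none => exact hγ hx
    | some i =>
      refine Or.inl (Or.inl (Or.inr ?_))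
      rw [mem_vars_subst]
      exact ⟨i, hg.sub i ho, hx⟩
  · exact Or.inl (Or.inr hx)

theorem idA_holds {S : Type u} [Add S] [Mul S] (hS : IsSemiring S) {p : Term ℕ}
    {h : Term (Option ℕ)} (hg : Good S p h) (l r W : Option (Term Y)) (γ : Term Y) (a : Y → S) :
    (idA p h l r W γ).1.eval a = (idA p h l r W γ).2.eval a := by
  simp only [idA, eval_add, eval_wrap, eval_plus, eval_hsub]
  rw [plusA_add hS, ← wrapA_add hS, eval_subst, hg.holds]

theorem idC_vars {S : Type u} [Add S] [Mul S] {p : Term ℕ} {h : Term (Option ℕ)}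
    (hg : Good S p h) (l r l' r' : Option (Term Y)) (e : Identity) :
    (idC h l r l' r' e).1.vars = (idC h l r l' r' e).2.vars := by
  have key : ∀ t : Term ℕ, (t = e.1 ∨ t = e.2) → (wrap l' r' (t.subst vz')).vars ⊆
      (wrap l r (hsub h vz
      (plus (plus ((e.1.subst vz').add (e.2.subst vz')) l') r'))).vars := by
    intro t ht x hx
    rw [vars_wrap]
    refine Or.inl (Or.inr ?_)
    rw [hsub, mem_vars_subst]
    refine ⟨none, hg.mem, ?_⟩
    simp only [Option.elim]
    rw [vars_plus, vars_plus, vars_add]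
    rw [vars_wrap] at hx
    rcases hx with (hx | hx) | hx
    · exact Or.inl (Or.inr hx)
    · refine Or.inl (Or.inl ?_)
      rcases ht with rfl | rfl
      exacts [Or.inl hx, Or.inr hx]
    · exact Or.inr hx
  simp only [idC, vars_add]
  rw [Set.union_eq_self_of_subset_left (key e.1 (Or.inl rfl)),
    Set.union_eq_self_of_subset_left (key e.2 (Or.inr rfl))]

theorem idC_holds {S : Type u} [Add S] [Mul S] (h : Term (Option ℕ))
    (l r l' r' : Option (Term Y)) {e : Identity} (he : Holds S e) (a : Y → S) :
    (idC h l r l' r' e).1.eval a = (idC h l r l' r' e).2.eval a := by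
  simp only [idC, eval_add, eval_wrap]
  rw [eval_subst a vz' e.1, eval_subst a vz' e.2, he]

/-- an optional variable -/
def ov (o : Option Unit) (j : Fin 6) : Option (Term Y) := o.map fun _ => vc j

/-- the auxiliary identities for one pair `(p, h)` -/
def Fam (E : Set Identity) (p : Term ℕ) (h : Term (Option ℕ)) : Set (Term Y × Term Y) :=
  (fun j => idA p h none none none (vz j)) '' p.vars ∪
  {idA p h none (some (vc 4)) none (vc 4), idA p h (some (vc 4)) none none (vc 4)} ∪
  Set.range (fun f : Option Unit × Option Unit =>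
    idA p h (ov f.1 0) (ov f.2 1) (some (vc 4)) (vc 4)) ∪
  {idA p h none none (some (hsub h vz ((vc 4).add (vc 5)))) (vc 4),
   idA p h none none (some (hsub h vz ((vc 4).mul (vc 5)))) (vc 4),
   idA p h none none (some (hsub h vz ((vc 4).mul (vc 5)))) (vc 5),
   idA p h none none (some ((hsub h vz (vc 4)).add (hsub h vz (vc 5)))) ((vc 4).add (vc 5)),
   idA p h none none (some ((hsub h vz (vc 4)).add (hsub h vz (vc 5)))) ((vc 4).mul (vc 5))} ∪
  ⋃ e ∈ E, Set.range (fun f : (Option Unit × Option Unit) × (Option Unit × Option Unit) =>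
    idC h (ov f.1.1 0) (ov f.1.2 1) (ov f.2.1 2) (ov f.2.2 3) e)

theorem Fam_finite {E : Set Identity} (hE : E.Finite) (p : Term ℕ) (h : Term (Option ℕ)) :
    (Fam E p h).Finite := by
  unfold Fam
  refine Set.Finite.union (Set.Finite.union (Set.Finite.union (Set.Finite.union ?_ ?_) ?_) ?_) ?_
  · exact (vars_finite p).image _
  · exact Set.toFinite _
  · exact Set.finite_range _
  · exact Set.toFinite _
  · exact hE.biUnion fun e _ => Set.finite_range _

theorem mem_hsub {V : Type} {h : Term (Option ℕ)} (hm : none ∈ h.vars) (ζ : ℕ → Term V)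
    (γ : Term V) : γ.vars ⊆ (hsub h ζ γ).vars := by
  intro x hx
  rw [hsub, mem_vars_subst]
  exact ⟨none, hm, hx⟩

theorem Fam_ok {S : Type u} [Add S] [Mul S] (hS : IsSemiring S) {p : Term ℕ}
    {h : Term (Option ℕ)} (hg : Good S p h) {E : Set Identity} (hE : ∀ e ∈ E, Holds S e)
    (d : Term Y × Term Y) (hd : d ∈ Fam E p h) :
    d.1.vars = d.2.vars ∧ ∀ a : Y → S, d.1.eval a = d.2.eval a := by
  unfold Fam at hd
  rcases hd with (((hd | hd) | hd) | hd) | hd
  · obtain ⟨j, hj, rfl⟩ := hd
    refine ⟨idA_vars hg ?_, idA_holds hS hg _ _ _ _⟩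
    intro x hx
    refine Or.inl (Or.inl (Or.inr ?_))
    rw [mem_vars_subst]
    exact ⟨j, hj, hx⟩
  · rcases hd with rfl | rfl
    · exact ⟨idA_vars hg fun x hx => Or.inl (Or.inr hx), idA_holds hS hg _ _ _ _⟩
    · exact ⟨idA_vars hg fun x hx => Or.inl (Or.inl (Or.inl hx)), idA_holds hS hg _ _ _ _⟩
  · obtain ⟨f, rfl⟩ := hd
    exact ⟨idA_vars hg fun x hx => Or.inr hx, idA_holds hS hg _ _ _ _⟩
  · have h4 := mem_hsub hg.mem vz ((vc 4).add (vc 5))
    have h5 := mem_hsub hg.mem vz ((vc 4).mul (vc 5))
    rcases hd with rfl | rfl | rfl | rfl | rfl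
    · exact ⟨idA_vars hg fun x hx => Or.inr (h4 (Or.inl hx)), idA_holds hS hg _ _ _ _⟩
    · exact ⟨idA_vars hg fun x hx => Or.inr (h5 (Or.inl hx)), idA_holds hS hg _ _ _ _⟩
    · exact ⟨idA_vars hg fun x hx => Or.inr (h5 (Or.inr hx)), idA_holds hS hg _ _ _ _⟩
    · refine ⟨idA_vars hg fun x hx => Or.inr ?_, idA_holds hS hg _ _ _ _⟩
      rcases hx with hx | hx
      exacts [Or.inl (mem_hsub hg.mem _ _ hx), Or.inr (mem_hsub hg.mem _ _ hx)]
    · refine ⟨idA_vars hg fun x hx => Or.inr ?_, idA_holds hS hg _ _ _ _⟩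
      rcases hx with hx | hx
      exacts [Or.inl (mem_hsub hg.mem _ _ hx), Or.inr (mem_hsub hg.mem _ _ hx)]
  · simp only [Set.mem_iUnion] at hd
    obtain ⟨e, he, f, rfl⟩ := hd
    exact ⟨idC_vars hg _ _ _ _ _, idC_holds h _ _ _ _ (hE e he)⟩

/-- what the auxiliary identities say in an algebra `A` -/
structure FamHolds (A : Type u) [Add A] [Mul A] (E : Set Identity) (p : Term ℕ)
    (h : Term (Option ℕ)) : Prop where
  f1 : ∀ (z : ℕ → A), ∀ j ∈ p.vars, p.eval z + hval h z (z j) = p.eval z
  f2 : ∀ (z : ℕ → A) (c : A), p.eval z * c + hval h z c * c = p.eval z * c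
  f3 : ∀ (z : ℕ → A) (c : A), c * p.eval z + c * hval h z c = c * p.eval z
  f4 : ∀ (z : ℕ → A) (l r : Option A) (c : A),
    wrapA l r (p.eval z) + c + wrapA l r (hval h z c) = wrapA l r (p.eval z) + c
  p1 : ∀ (z : ℕ → A) (c d : A),
    p.eval z + hval h z (c + d) + hval h z c = p.eval z + hval h z (c + d)
  p2 : ∀ (z : ℕ → A) (c d : A),
    p.eval z + hval h z (c * d) + hval h z c = p.eval z + hval h z (c * d)
  p3 : ∀ (z : ℕ → A) (c d : A),
    p.eval z + hval h z (c * d) + hval h z d = p.eval z + hval h z (c * d)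
  p4 : ∀ (z : ℕ → A) (c d : A),
    p.eval z + (hval h z c + hval h z d) + hval h z (c + d) = p.eval z + (hval h z c + hval h z d)
  p5 : ∀ (z : ℕ → A) (c d : A),
    p.eval z + (hval h z c + hval h z d) + hval h z (c * d) = p.eval z + (hval h z c + hval h z d)
  c : ∀ e ∈ E, ∀ (z z' : ℕ → A) (l r l' r' : Option A),
    wrapA l' r' (e.1.eval z') +
        wrapA l r (hval h z (plusA (plusA (e.1.eval z' + e.2.eval z') l') r')) =
      wrapA l' r' (e.2.eval z') +
        wrapA l r (hval h z (plusA (plusA (e.1.eval z' + e.2.eval z') l') r'))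

/-- an assignment of `Y` -/
def asg {A : Type u} (z z' : ℕ → A) (c : Fin 6 → A) : Y → A :=
  Sum.elim z (Sum.elim z' c)

section asg

variable {A : Type u} [Add A] [Mul A] (z z' : ℕ → A) (c : Fin 6 → A)

theorem asg_vz : (fun i => (vz i).eval (asg z z' c)) = z := rfl
theorem asg_vz' : (fun i => (vz' i).eval (asg z z' c)) = z' := rfl
theorem asg_vc (j : Fin 6) : (vc j).eval (asg z z' c) = c j := rfl

theorem asg_p (p : Term ℕ) : (p.subst vz).eval (asg z z' c) = p.eval z := by
  rw [eval_subst, asg_vz]

theorem asg_p' (p : Term ℕ) : (p.subst vz').eval (asg z z' c) = p.eval z' := by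
  rw [eval_subst, asg_vz']

theorem asg_h (h : Term (Option ℕ)) (γ : Term Y) :
    (hsub h vz γ).eval (asg z z' c) = hval h z (γ.eval (asg z z' c)) := by
  rw [eval_hsub, asg_vz]

theorem asg_ov (o : Option A) (j : Fin 6) (hj : ∀ x, o = some x → c j = x) :
    (ov (o.map fun _ => ()) j).map (Term.eval (asg z z' c)) = o := by
  cases o with
  | none => rfl
  | some x => simp [ov, asg_vc, hj x rfl]

end asg

theorem famHolds_of {A : Type u} [Add A] [Mul A] {E : Set Identity} {p : Term ℕ}
    {h : Term (Option ℕ)}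
    (H : ∀ d ∈ Fam E p h, ∀ a : Y → A, d.1.eval a = d.2.eval a) : FamHolds A E p h where
  f1 z j hj := by
    have := H (idA p h none none none (vz j))
      (Or.inl (Or.inl (Or.inl (Or.inl ⟨j, hj, rfl⟩)))) (asg z z (fun _ => z 0))
    simp only [idA, eval_add, eval_wrap, eval_plus, asg_h, asg_p, Option.map_none, wrapA, plusA] at this
    exact this
  f2 z c := by
    have := H (idA p h none (some (vc 4)) none (vc 4))
      (Or.inl (Or.inl (Or.inl (Or.inr (Or.inl rfl))))) (asg z z (fun _ => c))
    simp only [idA, eval_add, eval_wrap, eval_plus, asg_h, asg_p, Option.map_none,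
      Option.map_some, asg_vc, wrapA, plusA] at this
    exact this
  f3 z c := by
    have := H (idA p h (some (vc 4)) none none (vc 4))
      (Or.inl (Or.inl (Or.inl (Or.inr (Or.inr rfl))))) (asg z z (fun _ => c))
    simp only [idA, eval_add, eval_wrap, eval_plus, asg_h, asg_p, Option.map_none,
      Option.map_some, asg_vc, wrapA, plusA] at this
    exact this
  f4 z l r c := by
    have := H (idA p h (ov (l.map fun _ => ()) 0) (ov (r.map fun _ => ()) 1) (some (vc 4)) (vc 4))
      (Or.inl (Or.inl (Or.inr ⟨(l.map fun _ => (), r.map fun _ => ()), rfl⟩)))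
      (asg z z ![l.getD c, r.getD c, c, c, c, c])
    simp only [idA, eval_add, eval_wrap, eval_plus, asg_h, asg_p, Option.map_none,
      Option.map_some, asg_vc, plusA] at this
    rw [asg_ov _ _ _ l 0 (by rintro x rfl; rfl), asg_ov _ _ _ r 1 (by rintro x rfl; rfl)] at this
    exact this
  p1 z c d := by
    have := H (idA p h none none (some (hsub h vz ((vc 4).add (vc 5)))) (vc 4))
      (Or.inl (Or.inr (by simp))) (asg z z ![c, c, c, c, c, d])
    simp only [idA, eval_add, eval_wrap, eval_plus, asg_h, asg_p, Option.map_none,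
      Option.map_some, asg_vc, wrapA, plusA] at this
    exact this
  p2 z c d := by
    have := H (idA p h none none (some (hsub h vz ((vc 4).mul (vc 5)))) (vc 4))
      (Or.inl (Or.inr (by simp))) (asg z z ![c, c, c, c, c, d])
    simp only [idA, eval_add, eval_mul, eval_wrap, eval_plus, asg_h, asg_p, Option.map_none,
      Option.map_some, asg_vc, wrapA, plusA] at this
    exact this
  p3 z c d := by
    have := H (idA p h none none (some (hsub h vz ((vc 4).mul (vc 5)))) (vc 5))
      (Or.inl (Or.inr (by simp))) (asg z z ![c, c, c, c, c, d])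
    simp only [idA, eval_add, eval_mul, eval_wrap, eval_plus, asg_h, asg_p, Option.map_none,
      Option.map_some, asg_vc, wrapA, plusA] at this
    exact this
  p4 z c d := by
    have := H (idA p h none none (some ((hsub h vz (vc 4)).add (hsub h vz (vc 5))))
      ((vc 4).add (vc 5))) (Or.inl (Or.inr (by simp))) (asg z z ![c, c, c, c, c, d])
    simp only [idA, eval_add, eval_mul, eval_wrap, eval_plus, asg_h, asg_p, Option.map_none,
      Option.map_some, asg_vc, wrapA, plusA] at this
    exact this
  p5 z c d := by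
    have := H (idA p h none none (some ((hsub h vz (vc 4)).add (hsub h vz (vc 5))))
      ((vc 4).mul (vc 5))) (Or.inl (Or.inr (by simp))) (asg z z ![c, c, c, c, c, d])
    simp only [idA, eval_add, eval_mul, eval_wrap, eval_plus, asg_h, asg_p, Option.map_none,
      Option.map_some, asg_vc, wrapA, plusA] at this
    exact this
  c e he z z' l r l' r' := by
    have := H (idC h (ov (l.map fun _ => ()) 0) (ov (r.map fun _ => ()) 1)
      (ov (l'.map fun _ => ()) 2) (ov (r'.map fun _ => ()) 3) e)
      (Or.inr (by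
        simp only [Set.mem_iUnion]
        exact ⟨e, he, ((l.map fun _ => (), r.map fun _ => ()),
          (l'.map fun _ => (), r'.map fun _ => ())), rfl⟩))
      (asg z z' ![l.getD (z 0), r.getD (z 0), l'.getD (z 0), r'.getD (z 0), z 0, z 0])
    simp only [idC, eval_add, eval_wrap, eval_plus, asg_h, asg_p'] at this
    rw [asg_ov _ _ _ l 0 (by rintro x rfl; rfl), asg_ov _ _ _ r 1 (by rintro x rfl; rfl),
      asg_ov _ _ _ l' 2 (by rintro x rfl; rfl), asg_ov _ _ _ r' 3 (by rintro x rfl; rfl)] at this
    exact this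

/-! ### The argument in a model of the finite set -/

/-- terms which contain a substitution instance of a term in `I` -/
inductive HasIrr (I : Set (Term ℕ)) : Term ℕ → Prop
  | base (p : Term ℕ) (hp : p ∈ I) (σ : ℕ → Term ℕ) : HasIrr I (p.subst σ)
  | addl (s t : Term ℕ) : HasIrr I s → HasIrr I (s.add t)
  | addr (s t : Term ℕ) : HasIrr I t → HasIrr I (s.add t)
  | mull (s t : Term ℕ) : HasIrr I s → HasIrr I (s.mul t)
  | mulr (s t : Term ℕ) : HasIrr I t → HasIrr I (s.mul t)

section model

variable {A : Type u} [Add A] [Mul A] (hA : IsSemiring A)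

/-- the element `g` is absorbed by `l p(z) r + W` -/
def Abs (p : Term ℕ) (h : Term (Option ℕ)) (z : ℕ → A) (l r W : Option A) (g : A) : Prop :=
  plusA (wrapA l r (p.eval z)) W + wrapA l r (hval h z g) = plusA (wrapA l r (p.eval z)) W

variable {E : Set Identity} {p : Term ℕ} {h : Term (Option ℕ)} (hF : FamHolds A E p h)
  {z : ℕ → A} {l r W : Option A}

include hA hF

theorem abs_add (c d : A) :
    Abs p h z l r W (c + d) ↔ Abs p h z l r W c ∧ Abs p h z l r W d := by
  unfold Abs
  have e1 : ∀ c d : A, wrapA l r (p.eval z) + wrapA l r (hval h z (c + d)) +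
      wrapA l r (hval h z c) = wrapA l r (p.eval z) + wrapA l r (hval h z (c + d)) := by
    intro c d
    rw [← wrapA_add hA, ← wrapA_add hA, hF.p1]
  have e4 : wrapA l r (p.eval z) + (wrapA l r (hval h z c) + wrapA l r (hval h z d)) +
      wrapA l r (hval h z (c + d)) =
      wrapA l r (p.eval z) + (wrapA l r (hval h z c) + wrapA l r (hval h z d)) := by
    rw [← wrapA_add hA, ← wrapA_add hA, ← wrapA_add hA, hF.p4]
  have one : ∀ c d : A, plusA (wrapA l r (p.eval z)) W + wrapA l r (hval h z (c + d)) =
      plusA (wrapA l r (p.eval z)) W → plusA (wrapA l r (p.eval z)) W + wrapA l r (hval h z c) =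
      plusA (wrapA l r (p.eval z)) W := by
    intro c d h1
    rw [← h1, plusA_add hA, plusA_add hA, e1]
  constructor
  · intro h1
    exact ⟨one c d h1, one d c (by rw [hA.add_comm d c]; exact h1)⟩
  · rintro ⟨h1, h2⟩
    have h3 : plusA (wrapA l r (p.eval z)) W +
        (wrapA l r (hval h z c) + wrapA l r (hval h z d)) = plusA (wrapA l r (p.eval z)) W := by
      rw [← hA.add_assoc, h1, h2]
    rw [← h3, plusA_add hA, plusA_add hA, e4]

theorem abs_mul (c d : A) :
    Abs p h z l r W (c * d) ↔ Abs p h z l r W c ∧ Abs p h z l r W d := by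
  unfold Abs
  have e2 : wrapA l r (p.eval z) + wrapA l r (hval h z (c * d)) +
      wrapA l r (hval h z c) = wrapA l r (p.eval z) + wrapA l r (hval h z (c * d)) := by
    rw [← wrapA_add hA, ← wrapA_add hA, hF.p2]
  have e3 : wrapA l r (p.eval z) + wrapA l r (hval h z (c * d)) +
      wrapA l r (hval h z d) = wrapA l r (p.eval z) + wrapA l r (hval h z (c * d)) := by
    rw [← wrapA_add hA, ← wrapA_add hA, hF.p3]
  have e5 : wrapA l r (p.eval z) + (wrapA l r (hval h z c) + wrapA l r (hval h z d)) +
      wrapA l r (hval h z (c * d)) =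
      wrapA l r (p.eval z) + (wrapA l r (hval h z c) + wrapA l r (hval h z d)) := by
    rw [← wrapA_add hA, ← wrapA_add hA, ← wrapA_add hA, hF.p5]
  constructor
  · intro h1
    constructor
    · rw [← h1, plusA_add hA, plusA_add hA, e2]
    · rw [← h1, plusA_add hA, plusA_add hA, e3]
  · rintro ⟨h1, h2⟩
    have h3 : plusA (wrapA l r (p.eval z)) W +
        (wrapA l r (hval h z c) + wrapA l r (hval h z d)) = plusA (wrapA l r (p.eval z)) W := by
      rw [← hA.add_assoc, h1, h2]
    rw [← h3, plusA_add hA, plusA_add hA, e5]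

theorem abs_eval (a : ℕ → A) (t : Term ℕ) :
    Abs p h z l r W (t.eval a) ↔ ∀ i ∈ t.vars, Abs p h z l r W (a i) := by
  induction t with
  | var i => simp
  | add s t h1 h2 =>
    rw [eval_add, abs_add hA hF, h1, h2]
    constructor
    · rintro ⟨k1, k2⟩ i (hi | hi)
      exacts [k1 i hi, k2 i hi]
    · exact fun k => ⟨fun i hi => k i (Or.inl hi), fun i hi => k i (Or.inr hi)⟩
  | mul s t h1 h2 =>
    rw [eval_mul, abs_mul hA hF, h1, h2]
    constructor
    · rintro ⟨k1, k2⟩ i (hi | hi)
      exacts [k1 i hi, k2 i hi]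
    · exact fun k => ⟨fun i hi => k i (Or.inl hi), fun i hi => k i (Or.inr hi)⟩

/-- adding a summand -/
theorem abs_plus (c : A) (g : A) (h1 : Abs p h z l r W g) :
    Abs p h z l r (some (W.elim c (· + c))) g := by
  unfold Abs at h1 ⊢
  have e : plusA (wrapA l r (p.eval z)) (some (W.elim c (· + c))) =
      plusA (wrapA l r (p.eval z)) W + c := by
    cases W with
    | none => rfl
    | some w => simp only [plusA, Option.elim]; rw [hA.add_assoc]
  rw [e, hA.add_assoc, hA.add_comm c, ← hA.add_assoc, h1]

theorem abs_plus_self (c : A) : Abs p h z l r (some (W.elim c (· + c))) c := by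
  unfold Abs
  have e : plusA (wrapA l r (p.eval z)) (some (W.elim c (· + c))) =
      plusA (wrapA l r (p.eval z) + c) W := by
    cases W with
    | none => rfl
    | some w =>
      simp only [plusA, Option.elim]
      rw [hA.add_assoc, hA.add_comm c w]
  rw [e, plusA_add hA, hF.f4]

theorem plusA_mul (x c : A) : plusA x W * c = plusA (x * c) (W.map (· * c)) := by
  cases W with
  | none => rfl
  | some w => simp only [plusA, Option.map]; rw [hA.right_distrib]

theorem mul_plusA (x c : A) : c * plusA x W = plusA (c * x) (W.map (c * ·)) := by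
  cases W with
  | none => rfl
  | some w => simp only [plusA, Option.map]; rw [hA.left_distrib]

theorem abs_mulr (c g : A) (h1 : Abs p h z l r W g) :
    Abs p h z l (some (mulR r c)) (W.map (· * c)) g := by
  unfold Abs at h1 ⊢
  rw [← wrapA_mul_right hA, ← wrapA_mul_right hA, ← plusA_mul hA hF, ← hA.right_distrib, h1]

theorem abs_mull (c g : A) (h1 : Abs p h z l r W g) :
    Abs p h z (some (mulL c l)) r (W.map (c * ·)) g := by
  unfold Abs at h1 ⊢
  rw [← mul_wrapA hA, ← mul_wrapA hA, ← mul_plusA hA hF, ← hA.left_distrib, h1]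

theorem abs_mulr_self (W' : Option A) (c : A) : Abs p h z l (some c) W' c := by
  unfold Abs
  rw [plusA_add hA]
  congr 1
  have e : ∀ x : A, wrapA l (some c) x = wrapA l none (x * c) := by
    intro x
    cases l with
    | none => rfl
    | some l => simp only [wrapA]; rw [hA.mul_assoc]
  rw [e, e, ← wrapA_add hA, hF.f2]

theorem abs_mull_self (W' : Option A) (c : A) : Abs p h z (some c) r W' c := by
  unfold Abs
  rw [plusA_add hA]
  congr 1
  have e : ∀ x : A, wrapA (some c) r x = wrapA none r (c * x) := by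
    intro x
    cases r <;> rfl
  rw [e, e, ← wrapA_add hA, hF.f3]

end model

/-- a term `t` whose value is `l p(z) r + W` and which absorbs `l h(z, x) r` for all its
variables `x` -/
def Fat {A : Type u} [Add A] [Mul A] (I : Set (Term ℕ)) (H : Term ℕ → Term (Option ℕ))
    (a : ℕ → A) (t : Term ℕ) : Prop :=
  ∃ p ∈ I, ∃ (z : ℕ → A) (l r W : Option A), t.eval a = plusA (wrapA l r (p.eval z)) W ∧
    ∀ i ∈ t.vars, Abs p (H p) z l r W (a i)

theorem fat_of_hasIrr {A : Type u} [Add A] [Mul A] (hA : IsSemiring A) {E : Set Identity}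
    {I : Set (Term ℕ)} {H : Term ℕ → Term (Option ℕ)} (hF : ∀ p ∈ I, FamHolds A E p (H p))
    (a : ℕ → A) (t : Term ℕ) (ht : HasIrr I t) : Fat I H a t := by
  induction ht with
  | base p hp σ =>
    refine ⟨p, hp, fun i => (σ i).eval a, none, none, none, ?_, ?_⟩
    · rw [eval_subst]; rfl
    · intro i hi
      rw [mem_vars_subst] at hi
      obtain ⟨j, hj, hi⟩ := hi
      have h1 : Abs p (H p) (fun i => (σ i).eval a) none none none ((σ j).eval a) :=
        (hF p hp).f1 _ j hj
      exact (abs_eval hA (hF p hp) a (σ j)).1 h1 i hi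
  | addl s t _ ih =>
    obtain ⟨p, hp, z, l, r, W, h1, h2⟩ := ih
    refine ⟨p, hp, z, l, r, some (W.elim (t.eval a) (· + t.eval a)), ?_, ?_⟩
    · rw [eval_add, h1]
      cases W with
      | none => rfl
      | some w => simp only [plusA, Option.elim]; rw [hA.add_assoc]
    · rintro i (hi | hi)
      · exact abs_plus hA (hF p hp) _ _ (h2 i hi)
      · exact (abs_eval hA (hF p hp) a t).1 (abs_plus_self hA (hF p hp) _) i hi
  | addr s t _ ih =>
    obtain ⟨p, hp, z, l, r, W, h1, h2⟩ := ih
    refine ⟨p, hp, z, l, r, some (W.elim (s.eval a) (· + s.eval a)), ?_, ?_⟩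
    · rw [eval_add, h1, hA.add_comm]
      cases W with
      | none => rfl
      | some w => simp only [plusA, Option.elim]; rw [hA.add_assoc]
    · rintro i (hi | hi)
      · exact (abs_eval hA (hF p hp) a s).1 (abs_plus_self hA (hF p hp) _) i hi
      · exact abs_plus hA (hF p hp) _ _ (h2 i hi)
  | mull s t _ ih =>
    obtain ⟨p, hp, z, l, r, W, h1, h2⟩ := ih
    refine ⟨p, hp, z, l, some (mulR r (t.eval a)), W.map (· * t.eval a), ?_, ?_⟩
    · rw [eval_mul, h1, plusA_mul hA (hF p hp), wrapA_mul_right hA]
    · rintro i (hi | hi)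
      · exact abs_mulr hA (hF p hp) _ _ (h2 i hi)
      · have h3 : Abs p (H p) z l (some (mulR r (t.eval a))) (W.map (· * t.eval a))
            (mulR r (t.eval a)) := abs_mulr_self hA (hF p hp) _ _
        have h4 : Abs p (H p) z l (some (mulR r (t.eval a))) (W.map (· * t.eval a))
            (t.eval a) := by
          cases r with
          | none => exact h3
          | some r => exact ((abs_mul hA (hF p hp) r (t.eval a)).1 h3).2
        exact (abs_eval hA (hF p hp) a t).1 h4 i hi
  | mulr s t _ ih =>
    obtain ⟨p, hp, z, l, r, W, h1, h2⟩ := ih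
    refine ⟨p, hp, z, some (mulL (s.eval a) l), r, W.map (s.eval a * ·), ?_, ?_⟩
    · rw [eval_mul, h1, mul_plusA hA (hF p hp), mul_wrapA hA]
    · rintro i (hi | hi)
      · have h3 : Abs p (H p) z (some (mulL (s.eval a) l)) r (W.map (s.eval a * ·))
            (mulL (s.eval a) l) := abs_mull_self hA (hF p hp) _ _
        have h4 : Abs p (H p) z (some (mulL (s.eval a) l)) r (W.map (s.eval a * ·))
            (s.eval a) := by
          cases l with
          | none => exact h3
          | some l => exact ((abs_mul hA (hF p hp) (s.eval a) l).1 h3).1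
        exact (abs_eval hA (hF p hp) a s).1 h4 i hi
      · exact abs_mull hA (hF p hp) _ _ (h2 i hi)

/-- sums of elements `l h(z, g) r` -/
inductive Hold {A : Type u} [Add A] (φ : A → A) (B : Set A) : A → Prop
  | base (g : A) (hg : g ∈ B) : Hold φ B (φ g)
  | add (x y : A) : Hold φ B x → Hold φ B y → Hold φ B (x + y)

/-- One half of the argument: if `u` and `v` are equal in `S`, and all variables of `u` are
absorbed by `K = u`, then `u = v + x` with `u + x = u`. -/
theorem half {S : Type u} [Add S] [Mul S] {A : Type u} [Add A] [Mul A] (hA : IsSemiring A)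
    {E : Set Identity}
    (hE : ∀ (A : Type u) [Add A] [Mul A],
      (∀ e ∈ E, Holds A e) → ∀ e : Identity, Holds S e → Holds A e)
    {p : Term ℕ} {h : Term (Option ℕ)} (hF : FamHolds A E p h) (a z : ℕ → A)
    (l r W : Option A) (habs : ∀ i, Abs p h z l r W (a i)) (u v : Term ℕ)
    (hu : u.eval a = plusA (wrapA l r (p.eval z)) W) (huv : Holds S (u, v)) :
    ∃ x : A, u.eval a = v.eval a + x ∧ u.eval a + x = u.eval a := by
  let B : Set A := Set.range (Term.eval a)
  let φ : A → A := fun g => wrapA l r (hval h z g)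
  let R : Term ℕ → Term ℕ → Prop := fun w w' => ∀ l' r' : Option (Term ℕ), ∃ x, Hold φ B x ∧
    wrapA (l'.map (Term.eval a)) (r'.map (Term.eval a)) (w.eval a) + x =
    wrapA (l'.map (Term.eval a)) (r'.map (Term.eval a)) (w'.eval a) + x
  have htr : ∀ x y z H1 H2 : A, x + H1 = y + H1 → y + H2 = z + H2 →
      x + (H1 + H2) = z + (H1 + H2) := by
    intro x y z H1 H2 h1 h2
    rw [← hA.add_assoc, h1, hA.add_assoc, hA.add_comm H1 H2, ← hA.add_assoc, h2, hA.add_assoc]
  have hR : IsCong R := by
    refine ⟨⟨?_, ?_, ?_⟩, ?_, ?_⟩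
    · intro w l' r'
      exact ⟨_, Hold.base (w.eval a) ⟨w, rfl⟩, rfl⟩
    · intro w w' h1 l' r'
      obtain ⟨x, hx, e⟩ := h1 l' r'
      exact ⟨x, hx, e.symm⟩
    · intro w w' w'' h1 h2 l' r'
      obtain ⟨x, hx, e⟩ := h1 l' r'
      obtain ⟨y, hy, e'⟩ := h2 l' r'
      exact ⟨x + y, hx.add _ _ hy, htr _ _ _ _ _ e e'⟩
    · intro s s' t t' h1 h2 l' r'
      obtain ⟨x, hx, e⟩ := h1 l' r'
      obtain ⟨y, hy, e'⟩ := h2 l' r'
      refine ⟨x + y, hx.add _ _ hy, ?_⟩
      rw [eval_add, eval_add, wrapA_add hA, wrapA_add hA]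
      have hsw : ∀ b c d f : A, b + c + (d + f) = (b + d) + (c + f) := by
        intro b c d f
        rw [hA.add_assoc, hA.add_assoc]
        congr 1
        rw [← hA.add_assoc, ← hA.add_assoc, hA.add_comm c d]
      exact (hsw _ _ _ _).trans ((congrArg₂ (· + ·) e e').trans (hsw _ _ _ _).symm)
    · intro s s' t t' h1 h2 l' r'
      obtain ⟨x, hx, e⟩ := h1 l' (some (r'.elim t (fun r' => t.mul r')))
      obtain ⟨y, hy, e'⟩ := h2 (some (l'.elim s' (fun l' => l'.mul s'))) r'
      refine ⟨x + y, hx.add _ _ hy, htr _ (wrapA (l'.map (Term.eval a)) (r'.map (Term.eval a))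
        (s'.eval a * t.eval a)) _ _ _ ?_ ?_⟩
      · rw [eval_mul, wrapA_mul1 hA, wrapA_mul1 hA]
        convert e using 3 <;> (cases r' <;> rfl)
      · rw [eval_mul, wrapA_mul2 hA, wrapA_mul2 hA]
        convert e' using 3 <;> (cases l' <;> rfl)
  have hinst : ∀ e ∈ E, ∀ σ : ℕ → Term ℕ, R (e.1.subst σ) (e.2.subst σ) := by
    intro e he σ l' r'
    refine ⟨_, Hold.base ((plus (plus ((e.1.subst σ).add (e.2.subst σ)) l') r').eval a)
      ⟨_, rfl⟩, ?_⟩
    have := hF.c e he z (fun i => (σ i).eval a) l r (l'.map (Term.eval a)) (r'.map (Term.eval a))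
    simp only [φ, eval_plus, eval_add, eval_subst]
    exact this
  obtain ⟨x, hx, e⟩ := complete hE hR hinst (u, v) huv none none
  have hall : ∀ y, Hold φ B y → u.eval a + y = u.eval a := by
    intro y hy
    induction hy with
    | base g hg =>
      obtain ⟨w, rfl⟩ := hg
      have : Abs p h z l r W (w.eval a) := (abs_eval hA hF a w).2 fun i _ => habs i
      rw [hu]
      exact this
    | add x y _ _ h1 h2 => rw [← hA.add_assoc, h1, h2]
  exact ⟨x, (hall x hx).symm.trans e, hall x hx⟩

/-- the semiring laws, as identities -/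
def semiringIds : Set Identity :=
  {((Term.var 0).add (.var 1), (Term.var 1).add (.var 0)),
   (((Term.var 0).add (.var 1)).add (.var 2), (Term.var 0).add ((Term.var 1).add (.var 2))),
   (((Term.var 0).mul (.var 1)).mul (.var 2), (Term.var 0).mul ((Term.var 1).mul (.var 2))),
   ((Term.var 0).mul ((Term.var 1).add (.var 2)),
      ((Term.var 0).mul (.var 1)).add ((Term.var 0).mul (.var 2))),
   (((Term.var 0).add (.var 1)).mul (.var 2),
      ((Term.var 0).mul (.var 2)).add ((Term.var 1).mul (.var 2)))}

theorem semiringIds_holds {A : Type u} [Add A] [Mul A] (hA : IsSemiring A) (e : Identity)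
    (he : e ∈ semiringIds) : e.1.vars = e.2.vars ∧ Holds A e := by
  rcases he with rfl | rfl | rfl | rfl | rfl
  · exact ⟨Set.union_comm _ _, fun a => hA.add_comm _ _⟩
  · exact ⟨Set.union_assoc _ _ _, fun a => hA.add_assoc _ _ _⟩
  · exact ⟨Set.union_assoc _ _ _, fun a => hA.mul_assoc _ _ _⟩
  · refine ⟨?_, fun a => hA.left_distrib _ _ _⟩
    ext x
    simp only [vars_add, vars_mul, vars_var, Set.mem_union, Set.mem_singleton_iff]
    tauto
  · refine ⟨?_, fun a => hA.right_distrib _ _ _⟩
    ext x
    simp only [vars_add, vars_mul, vars_var, Set.mem_union, Set.mem_singleton_iff]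
    tauto

theorem isSemiring_of_ids {A : Type u} [Add A] [Mul A] (h : ∀ e ∈ semiringIds, Holds A e) :
    IsSemiring A where
  add_comm a b := h _ (Or.inl rfl) (fun n => if n = 0 then a else b)
  add_assoc a b c := h _ (Or.inr (Or.inl rfl)) (fun n => if n = 0 then a else if n = 1 then b else c)
  mul_assoc a b c :=
    h _ (Or.inr (Or.inr (Or.inl rfl))) (fun n => if n = 0 then a else if n = 1 then b else c)
  left_distrib a b c :=
    h _ (Or.inr (Or.inr (Or.inr (Or.inl rfl))))
      (fun n => if n = 0 then a else if n = 1 then b else c)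
  right_distrib a b c :=
    h _ (Or.inr (Or.inr (Or.inr (Or.inr rfl))))
      (fun n => if n = 0 then a else if n = 1 then b else c)

theorem result_nonempty (S : Type u) [Add S] [Mul S] [Nonempty S] (hS : IsSemiring S)
    (h : FinitelyBased S) : FinitelyBased (Ext S) := by
  classical
  obtain ⟨E, hEf, hE⟩ := h
  have hES : ∀ e ∈ E, Holds S e := (hE S).2 fun e he => he
  have hE' : ∀ (A : Type u) [Add A] [Mul A],
      (∀ e ∈ E, Holds A e) → ∀ e : Identity, Holds S e → Holds A e := fun A _ _ => (hE A).1
  -- the sides of the identities in `E` with different variables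
  let I : Set (Term ℕ) := {p | ∃ e ∈ E, e.1.vars ≠ e.2.vars ∧ (p = e.1 ∨ p = e.2)}
  have hIf : I.Finite := by
    refine ((hEf.image Prod.fst).union (hEf.image Prod.snd)).subset ?_
    rintro p ⟨e, he, -, rfl | rfl⟩
    exacts [Or.inl ⟨e, he, rfl⟩, Or.inr ⟨e, he, rfl⟩]
  have hgood : ∀ p : Term ℕ, ∃ h : Term (Option ℕ), p ∈ I → Good S p h := by
    intro p
    by_cases hp : p ∈ I
    · obtain ⟨e, he, hne, rfl | rfl⟩ := hp
      · obtain ⟨h, hh⟩ := exists_good hS (hES e he) hne
        exact ⟨h, fun _ => hh⟩
      · obtain ⟨h, hh⟩ := exists_good hS (fun a => (hES e he a).symm) hne.symm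
        exact ⟨h, fun _ => hh⟩
    · exact ⟨.var none, fun h => absurd h hp⟩
  choose H hH using hgood
  let E' : Set Identity := {e ∈ E | e.1.vars = e.2.vars} ∪ semiringIds ∪
    ⋃ p ∈ I, lower '' Fam E p (H p)
  refine ⟨E', ?_, fun A _ _ => ⟨fun hA' => ?_, fun hA' e he => hA' e ?_⟩⟩
  · refine Set.Finite.union (Set.Finite.union (hEf.subset fun e he => he.1) ?_) ?_
    · unfold semiringIds; exact Set.toFinite _
    · exact hIf.biUnion fun p _ => (Fam_finite hEf p (H p)).image _
  · -- a model `A` of `E'` satisfies all identities of `S ∪ {∞}`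
    have hA : IsSemiring A := isSemiring_of_ids fun e he => hA' e (Or.inl (Or.inr he))
    rintro ⟨u, v⟩ huv a
    obtain ⟨hv, huvS⟩ := (holds_ext (u, v)).1 huv
    have : Inhabited A := ⟨a 0⟩
    have hF : ∀ p ∈ I, FamHolds A E p (H p) := fun p hp => famHolds_of fun d hd =>
      holds_lower.1 (hA' (lower d) (Or.inr (by
        simp only [Set.mem_iUnion]
        exact ⟨p, hp, d, hd, rfl⟩)))
    -- either `u = v` follows from identities with equal sets of variables, or both are fat
    let Ft : Term ℕ → Prop := fun w => ∃ w', w.vars = w'.vars ∧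
      (∀ a : ℕ → A, w.eval a = w'.eval a) ∧ HasIrr I w'
    let R : Term ℕ → Term ℕ → Prop := fun w w' =>
      (w.vars = w'.vars ∧ ∀ a : ℕ → A, w.eval a = w'.eval a) ∨ (Ft w ∧ Ft w')
    have hFt : ∀ w w' : Term ℕ, w.vars = w'.vars → (∀ a : ℕ → A, w.eval a = w'.eval a) → Ft w → Ft w' := by
      rintro w w' h1 h2 ⟨w0, h3, h4, h5⟩
      exact ⟨w0, h1.symm.trans h3, fun a => (h2 a).symm.trans (h4 a), h5⟩
    have hFaddl : ∀ s t : Term ℕ, Ft s → Ft (s.add t) := by
      rintro s t ⟨w0, h3, h4, h5⟩
      exact ⟨w0.add t, by simp [h3], fun a => by simp [h4 a], h5.addl _ _⟩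
    have hFaddr : ∀ s t : Term ℕ, Ft t → Ft (s.add t) := by
      rintro s t ⟨w0, h3, h4, h5⟩
      exact ⟨s.add w0, by simp [h3], fun a => by simp [h4 a], h5.addr _ _⟩
    have hFmull : ∀ s t : Term ℕ, Ft s → Ft (s.mul t) := by
      rintro s t ⟨w0, h3, h4, h5⟩
      exact ⟨w0.mul t, by simp [h3], fun a => by simp [h4 a], h5.mull _ _⟩
    have hFmulr : ∀ s t : Term ℕ, Ft t → Ft (s.mul t) := by
      rintro s t ⟨w0, h3, h4, h5⟩
      exact ⟨s.mul w0, by simp [h3], fun a => by simp [h4 a], h5.mulr _ _⟩
    have hR : IsCong R := by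
      refine ⟨⟨fun w => Or.inl ⟨rfl, fun _ => rfl⟩, ?_, ?_⟩, ?_, ?_⟩
      · rintro w w' (⟨h1, h2⟩ | ⟨h1, h2⟩)
        exacts [Or.inl ⟨h1.symm, fun a => (h2 a).symm⟩, Or.inr ⟨h2, h1⟩]
      · rintro w w' w'' (⟨h1, h2⟩ | ⟨h1, h2⟩) (⟨h3, h4⟩ | ⟨h3, h4⟩)
        · exact Or.inl ⟨h1.trans h3, fun a => (h2 a).trans (h4 a)⟩
        · exact Or.inr ⟨hFt _ _ h1.symm (fun a => (h2 a).symm) h3, h4⟩
        · exact Or.inr ⟨h1, hFt _ _ h3 h4 h2⟩
        · exact Or.inr ⟨h1, h4⟩
      · rintro s s' t t' (⟨h1, h2⟩ | ⟨h1, h2⟩) (⟨h3, h4⟩ | ⟨h3, h4⟩)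
        · exact Or.inl ⟨by simp [h1, h3], fun a => by simp [h2 a, h4 a]⟩
        · exact Or.inr ⟨hFaddr _ _ h3, hFaddr _ _ h4⟩
        · exact Or.inr ⟨hFaddl _ _ h1, hFaddl _ _ h2⟩
        · exact Or.inr ⟨hFaddl _ _ h1, hFaddl _ _ h2⟩
      · rintro s s' t t' (⟨h1, h2⟩ | ⟨h1, h2⟩) (⟨h3, h4⟩ | ⟨h3, h4⟩)
        · exact Or.inl ⟨by simp [h1, h3], fun a => by simp [h2 a, h4 a]⟩
        · exact Or.inr ⟨hFmulr _ _ h3, hFmulr _ _ h4⟩
        · exact Or.inr ⟨hFmull _ _ h1, hFmull _ _ h2⟩
        · exact Or.inr ⟨hFmull _ _ h1, hFmull _ _ h2⟩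
    have hinst : ∀ e ∈ E, ∀ σ : ℕ → Term ℕ, R (e.1.subst σ) (e.2.subst σ) := by
      intro e he σ
      by_cases hvar : e.1.vars = e.2.vars
      · refine Or.inl ⟨by rw [vars_subst, vars_subst, hvar], fun a => ?_⟩
        rw [eval_subst, eval_subst]
        exact hA' e (Or.inl (Or.inl ⟨he, hvar⟩)) _
      · have h1 : e.1 ∈ I := ⟨e, he, hvar, Or.inl rfl⟩
        have h2 : e.2 ∈ I := ⟨e, he, hvar, Or.inr rfl⟩
        exact Or.inr ⟨⟨_, rfl, fun _ => rfl, HasIrr.base e.1 h1 σ⟩,
          ⟨_, rfl, fun _ => rfl, HasIrr.base e.2 h2 σ⟩⟩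
    rcases complete hE' hR hinst (u, v) huvS with ⟨-, h2⟩ | ⟨⟨u', hu1, hu2, hu3⟩, ⟨v', hv1, hv2, hv3⟩⟩
    · exact h2 a
    · -- the assignment which uses only the variables of `u` and `v`
      obtain ⟨i0, hi0⟩ := vars_nonempty u
      have hv0 : u.vars = v.vars := hv
      let b : ℕ → A := fun i => if i ∈ u.vars then a i else a i0
      have hbu : u.eval a = u.eval b := eval_congr u fun i hi => by simp [b, hi]
      have hbv : v.eval a = v.eval b := eval_congr v fun i hi => by
        have : i ∈ u.vars := hv0 ▸ hi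
        simp [b, this]
      have hball : ∀ i, ∃ j ∈ u.vars, b i = a j ∧ b j = a j := by
        intro i
        by_cases hi : i ∈ u.vars
        · exact ⟨i, hi, by simp [b, hi], by simp [b, hi]⟩
        · exact ⟨i0, hi0, by simp [b, hi], by simp [b, hi0]⟩
      obtain ⟨p, hp, z, l, r, W, hK, habs⟩ := fat_of_hasIrr hA hF b u' hu3
      obtain ⟨p', hp', z', l', r', W', hK', habs'⟩ := fat_of_hasIrr hA hF b v' hv3
      have habs1 : ∀ i, Abs p (H p) z l r W (b i) := by
        intro i
        obtain ⟨j, hj, h1, h2⟩ := hball i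
        rw [h1, ← h2]
        exact habs j (hu1 ▸ hj)
      have habs2 : ∀ i, Abs p' (H p') z' l' r' W' (b i) := by
        intro i
        obtain ⟨j, hj, h1, h2⟩ := hball i
        rw [h1, ← h2]
        exact habs' j (hv1 ▸ hv0 ▸ hj)
      obtain ⟨x, hx1, hx2⟩ := half hA hE' (hF p hp) b z l r W habs1 u v
        ((hu2 b).trans hK) huvS
      obtain ⟨y, hy1, hy2⟩ := half hA hE' (hF p' hp') b z' l' r' W' habs2 v u
        ((hv2 b).trans hK') fun a => (huvS a).symm
      show u.eval a = v.eval a
      rw [hbu, hbv]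
      have hvx : v.eval b + x = v.eval b := by
        conv_lhs => rw [hy1]
        rw [hA.add_assoc, hA.add_comm y x, ← hA.add_assoc, hx2, ← hy1]
      rw [hx1, hvx]
  · -- the identities in `E'` hold in `S ∪ {∞}`
    rw [holds_ext]
    rcases he with (he | he) | he
    · exact ⟨he.2, hES e he.1⟩
    · exact semiringIds_holds hS e he
    · simp only [Set.mem_iUnion] at he
      obtain ⟨p, hp, d, hd, rfl⟩ := he
      obtain ⟨h1, h2⟩ := Fam_ok hS (hH p hp) hES d hd
      exact ⟨vars_lower h1, holds_lower.2 h2⟩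

/-- **Answer to Q1 (yes).**  If a semiring `S` is finitely based, then so is `S ∪ {∞}`, where
`∞` is absorbing for both operations. -/
theorem result (S : Type u) [Add S] [Mul S] (hS : IsSemiring S)
    (h : FinitelyBased S) : FinitelyBased (Ext S) := by
  rcases isEmpty_or_nonempty S with he | hn
  · obtain ⟨E, hEf, hE⟩ := h
    have h1 : ∀ x y : Ext S, x = y := by
      intro x y
      cases x with
      | fin x => exact (he.false x).elim
      | inf =>
        cases y with
        | fin y => exact (he.false y).elim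
        | inf => rfl
    refine ⟨E, hEf, fun A _ _ => (hE A).trans ⟨fun H e _ => H e fun a => (he.false (a 0)).elim,
      fun H e _ => H e fun a => h1 _ _⟩⟩
  · exact result_nonempty S hS h

end Pool.Agent.Results.MP_cd9307_al.AbsorbingFinitelyBased
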